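import Mathlib

/-!
# The algebra `A` generated by two elements with Lie-nil relations has `A ^ (2 n - 2) ≠ 0`

`A = K<X,Y>^+ / I`, where `I` is generated by all `U ^ n`, `U` in the Lie algebra generated by `X, Y`.
We let `X` act on `K[x, y, z]` by `x + z ∂/∂y` and `Y` by `y - z ∂/∂x`.  Then `[X, Y]` acts by `2 z`,
which is central, and the `n`-th power of every combination of `X, Y, z` maps `K[x, y, z]` to
`(x, y, z) ^ n`.  But `(XY - YX) ^ (n - 1)` maps `1` to `(2 z) ^ (n - 1)`.
-/

set_option autoImplicit false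

namespace Pool.Agent.Results.MP_776ebc_al.PowNonzero

open MvPolynomial

attribute [local instance 100] LieRing.ofAssociativeRing

section Definitions

variable (K : Type) [Field K]

/-- The Lie subalgebra `L_0` of the free associative algebra on `X = ι 0` and `Y = ι 1` which is
generated by `X` and `Y`, for the bracket `[S, T] = S T - T S`. -/
def L0 : LieSubalgebra K (FreeAlgebra K (Fin 2)) :=
  LieSubalgebra.lieSpan K (FreeAlgebra K (Fin 2)) {FreeAlgebra.ι K 0, FreeAlgebra.ι K 1}

/-- The two-sided ideal `I` generated by all `U ^ n` with `U ∈ L_0`. -/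
def relIdeal (n : ℕ) : TwoSidedIdeal (FreeAlgebra K (Fin 2)) :=
  TwoSidedIdeal.span {w | ∃ U ∈ L0 K, w = U ^ n}

/-- The non-commutative polynomials with zero constant term, `K<X,Y>^+`. -/
def augmentation : Submodule K (FreeAlgebra K (Fin 2)) :=
  LinearMap.ker (FreeAlgebra.algebraMapInv : FreeAlgebra K (Fin 2) →ₐ[K] K).toLinearMap

/-- `A ^ k = 0` for `A = K<X,Y>^+ / I`: the span of the products of `k` elements of `K<X,Y>^+` is
contained in `I`. -/
def PowEqZero (n k : ℕ) : Prop :=
  ∀ w ∈ (augmentation K) ^ k, w ∈ relIdeal K n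

end Definitions

section Operators

variable {K : Type} [Field K]

/-- The operator `x + z ∂/∂y`. -/
noncomputable def opX : Module.End K (MvPolynomial (Fin 3) K) :=
  LinearMap.mulLeft K (X 0) + LinearMap.mulLeft K (X 2) ∘ₗ (pderiv (R := K) (1 : Fin 3)).toLinearMap

/-- The operator `y - z ∂/∂x`. -/
noncomputable def opY : Module.End K (MvPolynomial (Fin 3) K) :=
  LinearMap.mulLeft K (X 1) - LinearMap.mulLeft K (X 2) ∘ₗ (pderiv (R := K) (0 : Fin 3)).toLinearMap

/-- Multiplication by `z`. -/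
noncomputable def opZ : Module.End K (MvPolynomial (Fin 3) K) :=
  LinearMap.mulLeft K (X 2)

lemma opX_apply (f : MvPolynomial (Fin 3) K) : opX f = X 0 * f + X 2 * pderiv 1 f := rfl
lemma opY_apply (f : MvPolynomial (Fin 3) K) : opY f = X 1 * f - X 2 * pderiv 0 f := rfl
lemma opZ_apply (f : MvPolynomial (Fin 3) K) : opZ f = X 2 * f := rfl

lemma d0 (f : MvPolynomial (Fin 3) K) : pderiv 0 (X 0 * f) = f + X 0 * pderiv 0 f := by
  rw [Derivation.leibniz, pderiv_X_self]; simp only [smul_eq_mul]; ring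
lemma d1 (f : MvPolynomial (Fin 3) K) : pderiv 1 (X 1 * f) = f + X 1 * pderiv 1 f := by
  rw [Derivation.leibniz, pderiv_X_self]; simp only [smul_eq_mul]; ring
lemma d01 (f : MvPolynomial (Fin 3) K) : pderiv 0 (X 1 * f) = X 1 * pderiv 0 f := by
  rw [Derivation.leibniz, pderiv_X_of_ne (by decide)]; simp
lemma d10 (f : MvPolynomial (Fin 3) K) : pderiv 1 (X 0 * f) = X 0 * pderiv 1 f := by
  rw [Derivation.leibniz, pderiv_X_of_ne (by decide)]; simp
lemma d02 (f : MvPolynomial (Fin 3) K) : pderiv 0 (X 2 * f) = X 2 * pderiv 0 f := by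
  rw [Derivation.leibniz, pderiv_X_of_ne (by decide)]; simp
lemma d12 (f : MvPolynomial (Fin 3) K) : pderiv 1 (X 2 * f) = X 2 * pderiv 1 f := by
  rw [Derivation.leibniz, pderiv_X_of_ne (by decide)]; simp

lemma comm_pderiv (f : MvPolynomial (Fin 3) K) :
    pderiv 0 (pderiv 1 f) = pderiv 1 (pderiv 0 f) := by
  have h : ⁅pderiv (R := K) (0 : Fin 3), pderiv (R := K) (1 : Fin 3)⁆ = 0 := by
    apply MvPolynomial.derivation_ext
    intro i
    rw [Derivation.commutator_apply]
    fin_cases i <;> simp [pderiv_X]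
  have h2 := DFunLike.congr_fun h f
  rw [Derivation.commutator_apply] at h2
  exact sub_eq_zero.mp h2

lemma lie_XY : (opX * opY - opY * opX : Module.End K (MvPolynomial (Fin 3) K)) = (2 : K) • opZ := by
  refine LinearMap.ext fun f => ?_
  simp only [LinearMap.sub_apply, Module.End.mul_apply, LinearMap.smul_apply, opX_apply, opY_apply,
    opZ_apply, map_sub, map_add, d0, d1, d02, d12, comm_pderiv]
  rw [Algebra.smul_def, map_ofNat]
  ring

lemma lie_XZ : (opX * opZ : Module.End K (MvPolynomial (Fin 3) K)) = opZ * opX := by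
  refine LinearMap.ext fun f => ?_
  simp only [Module.End.mul_apply, opX_apply, opZ_apply, d12]
  ring

lemma lie_YZ : (opY * opZ : Module.End K (MvPolynomial (Fin 3) K)) = opZ * opY := by
  refine LinearMap.ext fun f => ?_
  simp only [Module.End.mul_apply, opY_apply, opZ_apply, d02]
  ring

/-- The representation of the free algebra. -/
noncomputable def rep : FreeAlgebra K (Fin 2) →ₐ[K] Module.End K (MvPolynomial (Fin 3) K) :=
  FreeAlgebra.lift K ![opX, opY]

lemma rep_X : rep (FreeAlgebra.ι K 0) = (opX : Module.End K (MvPolynomial (Fin 3) K)) := by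
  simp [rep]
lemma rep_Y : rep (FreeAlgebra.ι K 1) = (opY : Module.End K (MvPolynomial (Fin 3) K)) := by
  simp [rep]

/-- Every element of `L_0` acts by a combination of `opX, opY, opZ`. -/
lemma rep_L0 (U : FreeAlgebra K (Fin 2)) (hU : U ∈ L0 K) :
    ∃ a b c : K, rep U = a • opX + b • opY + c • opZ := by
  unfold L0 at hU
  induction hU using LieSubalgebra.lieSpan_induction with
  | mem x h =>
    rcases h with h | h
    · exact ⟨1, 0, 0, by rw [h, rep_X]; simp⟩
    · rw [Set.mem_singleton_iff] at h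
      exact ⟨0, 1, 0, by rw [h, rep_Y]; simp⟩
  | zero => exact ⟨0, 0, 0, by simp⟩
  | add x y _ _ hx hy =>
    obtain ⟨a, b, c, h⟩ := hx
    obtain ⟨a', b', c', h'⟩ := hy
    refine ⟨a + a', b + b', c + c', ?_⟩
    rw [map_add, h, h']
    module
  | smul r x _ hx =>
    obtain ⟨a, b, c, h⟩ := hx
    refine ⟨r * a, r * b, r * c, ?_⟩
    rw [map_smul, h]
    module
  | lie x y _ _ hx hy =>
    obtain ⟨a, b, c, h⟩ := hx
    obtain ⟨a', b', c', h'⟩ := hy
    refine ⟨0, 0, 2 * (a * b' - b * a'), ?_⟩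
    rw [LieRing.of_associative_ring_bracket, map_sub, map_mul, map_mul, h, h']
    have e1 := lie_XY (K := K)
    have e2 := lie_XZ (K := K)
    have e3 := lie_YZ (K := K)
    simp only [mul_add, add_mul, smul_mul_assoc, mul_smul_comm]
    rw [e2, e3]
    have e4 : (opX * opY : Module.End K (MvPolynomial (Fin 3) K)) = opY * opX + (2 : K) • opZ := by
      rw [← e1]; abel
    rw [e4]
    module

/-- The ideal `(x, y, z)`. -/
noncomputable def m : Ideal (MvPolynomial (Fin 3) K) := Ideal.span {X 0, X 1, X 2}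

lemma X0_mem : (X 0 : MvPolynomial (Fin 3) K) ∈ m := Ideal.subset_span (by simp)
lemma X1_mem : (X 1 : MvPolynomial (Fin 3) K) ∈ m := Ideal.subset_span (by simp)
lemma X2_mem : (X 2 : MvPolynomial (Fin 3) K) ∈ m := Ideal.subset_span (by simp)

/-- `z D` preserves the powers of `m`, for every derivation `D`. -/
lemma zD_mem (D : Derivation K (MvPolynomial (Fin 3) K) (MvPolynomial (Fin 3) K)) (n : ℕ)
    (f : MvPolynomial (Fin 3) K) (hf : f ∈ (m : Ideal (MvPolynomial (Fin 3) K)) ^ n) :
    X 2 * D f ∈ (m : Ideal (MvPolynomial (Fin 3) K)) ^ n := by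
  induction n generalizing f with
  | zero => simp
  | succ n ih =>
    rw [pow_succ] at hf ⊢
    refine Submodule.mul_induction_on hf ?_ ?_
    · intro g hg h hh
      have e : X 2 * D (g * h) = g * (X 2 * D h) + (X 2 * D g) * h := by
        rw [Derivation.leibniz]; simp only [smul_eq_mul]; ring
      rw [e]
      exact add_mem (Ideal.mul_mem_mul hg (Ideal.mul_mem_right _ _ X2_mem))
        (Ideal.mul_mem_mul (ih g hg) hh)
    · intro g h hg hh
      rw [map_add, mul_add]
      exact add_mem hg hh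

lemma rep_mem (u : FreeAlgebra K (Fin 2)) (n : ℕ) (f : MvPolynomial (Fin 3) K)
    (hf : f ∈ (m : Ideal (MvPolynomial (Fin 3) K)) ^ n) :
    rep u f ∈ (m : Ideal (MvPolynomial (Fin 3) K)) ^ n := by
  induction u using FreeAlgebra.induction generalizing f with
  | grade0 r =>
    rw [AlgHom.commutes, Module.algebraMap_end_apply, Algebra.smul_def]
    exact Ideal.mul_mem_left _ _ hf
  | grade1 i =>
    fin_cases i
    · show rep (FreeAlgebra.ι K 0) f ∈ _
      rw [rep_X, opX_apply]
      exact add_mem (Ideal.mul_mem_left _ _ hf) (zD_mem _ n f hf)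
    · show rep (FreeAlgebra.ι K 1) f ∈ _
      rw [rep_Y, opY_apply]
      exact sub_mem (Ideal.mul_mem_left _ _ hf) (zD_mem _ n f hf)
  | mul a b ha hb =>
    rw [map_mul, Module.End.mul_apply]
    exact ha _ (hb _ hf)
  | add a b ha hb =>
    rw [map_add, LinearMap.add_apply]
    exact add_mem (ha _ hf) (hb _ hf)

/-- The `n`-th power of a combination of `opX, opY, opZ` maps everything into `m ^ n`. -/
lemma pow_mem (a b c : K) (n : ℕ) (f : MvPolynomial (Fin 3) K) :
    ((a • opX + b • opY + c • opZ : Module.End K (MvPolynomial (Fin 3) K)) ^ n) f ∈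
      (m : Ideal (MvPolynomial (Fin 3) K)) ^ n := by
  set l : MvPolynomial (Fin 3) K := a • X 0 + b • X 1 + c • X 2 with hl
  set D : Derivation K (MvPolynomial (Fin 3) K) (MvPolynomial (Fin 3) K) :=
    a • pderiv 1 - b • pderiv 0 with hD
  set V : Module.End K (MvPolynomial (Fin 3) K) := LinearMap.mulLeft K l with hV
  set W : Module.End K (MvPolynomial (Fin 3) K) := LinearMap.mulLeft K (X 2) ∘ₗ D.toLinearMap
    with hW
  have hDl : D l = 0 := by
    rw [hD, hl]
    simp only [Derivation.sub_apply, Derivation.smul_apply, map_add, map_smul, pderiv_X]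
    simp [smul_smul, mul_comm]
  have hD2 : D (X 2) = 0 := by
    rw [hD]
    simp only [Derivation.sub_apply, Derivation.smul_apply, pderiv_X]
    simp
  have hsum : (a • opX + b • opY + c • opZ : Module.End K (MvPolynomial (Fin 3) K)) = V + W := by
    refine LinearMap.ext fun g => ?_
    simp only [LinearMap.add_apply, LinearMap.smul_apply, opX_apply, opY_apply, opZ_apply, hV, hW,
      LinearMap.mulLeft_apply, LinearMap.comp_apply, hl, hD, Derivation.coeFn_coe,
      Derivation.sub_apply, Derivation.smul_apply]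
    simp only [Algebra.smul_def]
    ring
  have hcomm : Commute V W := by
    refine LinearMap.ext fun g => ?_
    simp only [Module.End.mul_apply, hV, hW, LinearMap.mulLeft_apply, LinearMap.comp_apply,
      Derivation.coeFn_coe]
    rw [Derivation.leibniz, hDl]
    simp only [smul_eq_mul]
    ring
  have hVk : ∀ (k : ℕ) (g : MvPolynomial (Fin 3) K), (V ^ k) g = l ^ k * g := by
    intro k
    induction k with
    | zero => intro g; simp
    | succ k ih =>
      intro g
      rw [pow_succ, Module.End.mul_apply, ih, hV, LinearMap.mulLeft_apply]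
      ring
  have hWk : ∀ (k : ℕ) (g : MvPolynomial (Fin 3) K), ∃ h, (W ^ k) g = X 2 ^ k * h := by
    intro k
    induction k with
    | zero => intro g; exact ⟨g, by simp⟩
    | succ k ih =>
      intro g
      obtain ⟨h, hh⟩ := ih g
      refine ⟨D h, ?_⟩
      rw [pow_succ', Module.End.mul_apply, hh, hW, LinearMap.comp_apply, LinearMap.mulLeft_apply,
        Derivation.coeFn_coe, Derivation.leibniz, Derivation.leibniz_pow, hD2]
      simp only [smul_eq_mul, smul_zero, mul_zero, add_zero]
      ring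
  have hlm : l ∈ (m : Ideal (MvPolynomial (Fin 3) K)) := by
    rw [hl]
    refine add_mem (add_mem ?_ ?_) ?_
    · rw [Algebra.smul_def]; exact Ideal.mul_mem_left _ _ X0_mem
    · rw [Algebra.smul_def]; exact Ideal.mul_mem_left _ _ X1_mem
    · rw [Algebra.smul_def]; exact Ideal.mul_mem_left _ _ X2_mem
  rw [hsum, hcomm.add_pow, LinearMap.sum_apply]
  refine sum_mem fun k hk => ?_
  have hk' : k ≤ n := Nat.lt_succ_iff.mp (Finset.mem_range.mp hk)
  rw [Module.End.mul_apply, Module.End.mul_apply]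
  obtain ⟨h, hh⟩ := hWk (n - k) (((n.choose k : ℕ) : Module.End K (MvPolynomial (Fin 3) K)) f)
  rw [hh, hVk]
  have e : (m : Ideal (MvPolynomial (Fin 3) K)) ^ n = m ^ k * m ^ (n - k) := by
    rw [← pow_add, Nat.add_sub_cancel' hk']
  rw [e]
  exact Ideal.mul_mem_mul (Ideal.pow_mem_pow hlm k)
    (Ideal.mul_mem_right _ _ (Ideal.pow_mem_pow X2_mem (n - k)))

/-- The ideal `I` maps everything into `m ^ n`. -/
lemma relIdeal_mem (n : ℕ) (u : FreeAlgebra K (Fin 2)) (hu : u ∈ relIdeal K n) :
    ∀ f : MvPolynomial (Fin 3) K, rep u f ∈ (m : Ideal (MvPolynomial (Fin 3) K)) ^ n := by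
  unfold relIdeal at hu
  induction hu using TwoSidedIdeal.span_induction with
  | mem x h =>
    intro f
    obtain ⟨U, hU, rfl⟩ := h
    obtain ⟨a, b, c, e⟩ := rep_L0 U hU
    rw [map_pow, e]
    exact pow_mem a b c n f
  | zero => intro f; simp
  | add x y _ _ hx hy =>
    intro f
    rw [map_add, LinearMap.add_apply]
    exact add_mem (hx f) (hy f)
  | neg x _ hx =>
    intro f
    rw [map_neg, LinearMap.neg_apply]
    exact neg_mem (hx f)
  | left_absorb a x _ hx =>
    intro f
    rw [map_mul, Module.End.mul_apply]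
    exact rep_mem a n _ (hx f)
  | right_absorb b x _ hx =>
    intro f
    rw [map_mul, Module.End.mul_apply]
    exact hx _

/-- The evaluation `x, y ↦ 0`, `z ↦ t`. -/
noncomputable def ev : MvPolynomial (Fin 3) K →ₐ[K] Polynomial K :=
  aeval ![0, 0, Polynomial.X]

lemma ev_mem (n : ℕ) (f : MvPolynomial (Fin 3) K)
    (hf : f ∈ (m : Ideal (MvPolynomial (Fin 3) K)) ^ n) : (Polynomial.X : Polynomial K) ^ n ∣ ev f := by
  have h1 : (m : Ideal (MvPolynomial (Fin 3) K)) ≤
      Ideal.comap (ev (K := K)) (Ideal.span {Polynomial.X}) := by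
    unfold m
    rw [Ideal.span_le]
    intro g hg
    simp only [Set.mem_insert_iff, Set.mem_singleton_iff] at hg
    rw [SetLike.mem_coe, Ideal.mem_comap, Ideal.mem_span_singleton]
    rcases hg with rfl | rfl | rfl <;> simp [ev]
  have h2 : (m : Ideal (MvPolynomial (Fin 3) K)) ^ n ≤
      Ideal.comap (ev (K := K)) (Ideal.span {Polynomial.X} ^ n) :=
    (Ideal.pow_right_mono h1 n).trans (Ideal.le_comap_pow _ n)
  have h3 := h2 hf
  rwa [Ideal.mem_comap, Ideal.span_singleton_pow, Ideal.mem_span_singleton] at h3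

/-- Over a field in which `2 ≠ 0`, the element `(XY - YX) ^ (n - 1)` is not in `I`. -/
lemma comm_pow_notMem (n : ℕ) (hn : 1 ≤ n) (h2 : (2 : K) ≠ 0) :
    (FreeAlgebra.ι K 0 * FreeAlgebra.ι K 1 - FreeAlgebra.ι K 1 * FreeAlgebra.ι K 0 :
      FreeAlgebra K (Fin 2)) ^ (n - 1) ∉ relIdeal K n := by
  intro hmem
  have h := ev_mem n _ (relIdeal_mem n _ hmem 1)
  rw [map_pow, map_sub, map_mul, map_mul, rep_X, rep_Y, lie_XY] at h
  have hk : ∀ k : ℕ, (((2 : K) • opZ : Module.End K (MvPolynomial (Fin 3) K)) ^ k) 1 =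
      ((2 : K) • X 2) ^ k := by
    intro k
    induction k with
    | zero => simp
    | succ k ih =>
      rw [pow_succ', Module.End.mul_apply, ih, LinearMap.smul_apply, opZ_apply, pow_succ']
      simp only [Algebra.smul_def]
      ring
  rw [hk, map_pow, map_smul] at h
  have hev : ev (K := K) (X 2) = Polynomial.X := by simp [ev]
  rw [hev] at h
  have hd : ((2 : K) • (Polynomial.X : Polynomial K)) ^ (n - 1) =
      Polynomial.C ((2 : K) ^ (n - 1)) * Polynomial.X ^ (n - 1) := by
    rw [smul_pow, Polynomial.smul_eq_C_mul]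
  rw [hd, Polynomial.X_pow_dvd_iff] at h
  have h3 := h (n - 1) (by omega)
  rw [Polynomial.coeff_C_mul, Polynomial.coeff_X_pow_self, mul_one] at h3
  exact pow_ne_zero _ h2 h3

lemma comm_mem_aug : (FreeAlgebra.ι K 0 * FreeAlgebra.ι K 1 - FreeAlgebra.ι K 1 * FreeAlgebra.ι K 0 :
      FreeAlgebra K (Fin 2)) ∈ (augmentation K) ^ 2 := by
  have hi : ∀ i : Fin 2, (FreeAlgebra.ι K i : FreeAlgebra K (Fin 2)) ∈ augmentation K := by
    intro i
    unfold augmentation
    rw [LinearMap.mem_ker]
    show FreeAlgebra.algebraMapInv (FreeAlgebra.ι K i) = 0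
    simp [FreeAlgebra.algebraMapInv]
  rw [pow_two]
  exact sub_mem (Submodule.mul_mem_mul (hi 0) (hi 1)) (Submodule.mul_mem_mul (hi 1) (hi 0))

/-- Over a field in which `2 ≠ 0`, `A ^ (2 n - 2) ≠ 0` for every `n ≥ 1`. -/
theorem not_powEqZero (n : ℕ) (hn : 1 ≤ n) (h2 : (2 : K) ≠ 0) : ¬ PowEqZero K n (2 * n - 2) := by
  intro h
  refine comm_pow_notMem n hn h2 (h _ ?_)
  have e : 2 * n - 2 = 2 * (n - 1) := by omega
  rw [e, pow_mul]
  exact Submodule.pow_mem_pow _ comm_mem_aug _

end Operators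

/-- For every `n ≥ 3` and for `K = ℚ` as well as for every `K = 𝔽_p` with `p > 3 n / 2`,
the power `A ^ (2 n - 2)` is not zero. -/
theorem result (n : ℕ) (hn : 3 ≤ n) :
    ¬ PowEqZero ℚ n (2 * n - 2) ∧
      ∀ (p : ℕ) [Fact p.Prime], 3 * n < 2 * p → ¬ PowEqZero (ZMod p) n (2 * n - 2) := by
  refine ⟨not_powEqZero n (by omega) two_ne_zero, ?_⟩
  intro p hp hpn
  refine not_powEqZero n (by omega) ?_
  have : (2 : ZMod p) = ((2 : ℕ) : ZMod p) := by norm_num
  rw [this, Ne, ZMod.natCast_eq_zero_iff]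
  intro hd
  have := Nat.le_of_dvd (by norm_num) hd
  omega

end Pool.Agent.Results.MP_776ebc_al.PowNonzero
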